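import Pool.Agent.Helper47.TY.DMain

/-!
MP_8ee768_co, project TH-Y', stage D: the form of the run modules.

* `dBatch o typ b`: a list of complete rows `(t, row, certificates)`.
* `dUnit o T ls i a n cs`: root `i` of the row `ls`, entries `a, .., a + n - 1`; `RowUnits` collects
  the units of a row, `nssOk` checks that they cover all `i ≤ j`.
* `tieB`: the literal rows are the rows of the table.
* `covM`: every type with at least 23 blocks is among the treated ones (bit mask `bm ts`).
-/

set_option autoImplicit false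
set_option maxRecDepth 100000
set_option exponentiation.threshold 20000

namespace Pool.Agent.Helper47.TY

open Finset
open Pool.Agent.Helper89.CV (OddCover ofMask)
open Pool.Agent.Helper97.CV Pool.Agent.Helper79.CV
open Pool.Agent.Helper82.TY (below Best popR force force_eq)
open Pool.Agent.Helper4.CV Pool.Agent.Helper33.TY Pool.Agent.Helper7.TY Pool.Agent.Helper54.TY

/-- all pairs of the row `t` are dead -/
def RowDead (typ nl : ℕ → ℕ) (ln : ℕ → ℕ → ℕ) (t : ℕ) : Prop :=
  ∀ i j, i ≤ j → j < nl t →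
    PDead QD (typ t * 2 ^ 330 + ln t i) (cone 11 (fam 11 4 (ln t j)))

/-- the row of the table -/
def rowL (nl : ℕ → ℕ) (ln : ℕ → ℕ → ℕ) (t : ℕ) : List ℕ := (List.range (nl t)).map (ln t)

/-! ## batches of complete rows -/

/-- the check of a batch -/
def dBatch (o : ℕ → SOps) (typ : ℕ → ℕ) (b : List (ℕ × List ℕ × List (List ℕ))) : Bool :=
  @List.rec (ℕ × List ℕ × List (List ℕ)) (fun _ => Bool) true
    (fun x _ ih => @Bool.rec (fun _ => Bool) false ih
      (force (typ x.1) fun T => rowOk o (qD T) T x.2.1 x.2.2)) b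

theorem dBatch_cons (o : ℕ → SOps) (typ : ℕ → ℕ) (x : ℕ × List ℕ × List (List ℕ))
    (b : List (ℕ × List ℕ × List (List ℕ))) : dBatch o typ (x :: b) =
      (bif (force (typ x.1) fun T => rowOk o (qD T) T x.2.1 x.2.2) then dBatch o typ b
        else false) := by
  rw [← rec_cond]
  rfl

theorem dBatch_mem {o : ℕ → SOps} {typ : ℕ → ℕ} :
    ∀ {b : List (ℕ × List ℕ × List (List ℕ))}, dBatch o typ b = true → ∀ x ∈ b,
      rowOk o (qD (typ x.1)) (typ x.1) x.2.1 x.2.2 = true := by
  intro b
  induction b with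
  | nil => exact fun _ x hx => absurd hx List.not_mem_nil
  | cons y b ih =>
    intro h x hx
    rw [dBatch_cons] at h
    obtain ⟨h1, h2⟩ := bif_true h
    rcases List.mem_cons.1 hx with rfl | hx
    · rw [force_eq] at h1
      exact h1
    · exact ih h2 x hx

/-! ## the tie of the literal rows -/

/-- equality of lists of numbers -/
def eqL (a : List ℕ) : List ℕ → Bool :=
  @List.rec ℕ (fun _ => List ℕ → Bool)
    (fun b => @List.rec ℕ (fun _ => Bool) true (fun _ _ _ => false) b)
    (fun x _ ih b => @List.rec ℕ (fun _ => Bool) false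
      (fun y b' _ => @Bool.rec (fun _ => Bool) false (ih b') (Nat.beq x y)) b) a

theorem eqL_sound : ∀ {a b : List ℕ}, eqL a b = true → a = b := by
  intro a
  induction a with
  | nil =>
    intro b h
    cases b with
    | nil => rfl
    | cons y b => exact absurd h Bool.false_ne_true
  | cons x a ih =>
    intro b h
    cases b with
    | nil => exact absurd h Bool.false_ne_true
    | cons y b =>
      have h0 : (bif Nat.beq x y then eqL a b else false) = true := by
        rw [← rec_cond]
        exact h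
      obtain ⟨h1, h2⟩ := bif_true h0
      rw [Nat.eq_of_beq_eq_true h1, ih h2]

/-- the tie of a batch -/
def tieB (nl : ℕ → ℕ) (ln : ℕ → ℕ → ℕ) (b : List (ℕ × List ℕ)) : Bool :=
  @List.rec (ℕ × List ℕ) (fun _ => Bool) true
    (fun x _ ih => @Bool.rec (fun _ => Bool) false ih (eqL (rowL nl ln x.1) x.2)) b

theorem tieB_mem {nl : ℕ → ℕ} {ln : ℕ → ℕ → ℕ} : ∀ {b : List (ℕ × List ℕ)},
    tieB nl ln b = true → ∀ x ∈ b, rowL nl ln x.1 = x.2 := by
  intro b
  induction b with
  | nil => exact fun _ x hx => absurd hx List.not_mem_nil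
  | cons y b ih =>
    intro h x hx
    have h0 : (bif eqL (rowL nl ln y.1) y.2 then tieB nl ln b else false) = true := by
      rw [← rec_cond]
      exact h
    obtain ⟨h1, h2⟩ := bif_true h0
    rcases List.mem_cons.1 hx with rfl | hx
    · exact eqL_sound h1
    · exact ih h2 x hx

/-- the rows of a batch without the certificates -/
def rowsOf (b : List (ℕ × List ℕ × List (List ℕ))) : List (ℕ × List ℕ) :=
  b.map fun x => (x.1, x.2.1)

/-! ## units of heavy rows -/

/-- root `i`, entries `a, .., a + n - 1` of the row `ls` -/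
def dUnit (o : ℕ → SOps) (T : ℕ) (ls : List ℕ) (i a n : ℕ) (cs : List ℕ) : Bool :=
  rOk o (qD T) T (Nat.add (Nat.shiftLeft T 330) (ls.getD i 0)) ((ls.drop a).take n) cs

/-- consecutive slices from `a` on -/
def UnitsFrom (H : ℕ → ℕ → Prop) : ℕ → List ℕ → Prop
  | _, [] => True
  | a, n :: ns => H a n ∧ UnitsFrom H (a + n) ns

theorem UnitsFrom.exists {H : ℕ → ℕ → Prop} : ∀ {ns : List ℕ} {a : ℕ}, UnitsFrom H a ns →
    ∀ j, a ≤ j → j < a + ns.sum → ∃ a' n, H a' n ∧ a' ≤ j ∧ j < a' + n := by
  intro ns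
  induction ns with
  | nil =>
    intro a _ j h1 h2
    rw [List.sum_nil] at h2
    omega
  | cons n ns ih =>
    intro a h j h1 h2
    rw [List.sum_cons] at h2
    by_cases h3 : j < a + n
    · exact ⟨a, n, h.1, h1, h3⟩
    · exact ih h.2 j (by omega) (by omega)

/-- the units of a row: `nss[i]` = lengths of the slices of the root `i`, the first one starts at
the entry `i` -/
def RowUnits (H : ℕ → ℕ → ℕ → Prop) : ℕ → List (List ℕ) → Prop
  | _, [] => True
  | i, ns :: nss => UnitsFrom (H i) i ns ∧ RowUnits H (i + 1) nss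

/-- the slices of every root reach the end `len` -/
def nssOk (len : ℕ) : ℕ → List (List ℕ) → Bool
  | i, [] => Nat.beq i len
  | i, ns :: nss => Nat.beq (Nat.add i ns.sum) len && nssOk len (Nat.succ i) nss

theorem RowUnits.exists {H : ℕ → ℕ → ℕ → Prop} {len : ℕ} : ∀ {nss : List (List ℕ)} {i₀ : ℕ},
    RowUnits H i₀ nss → nssOk len i₀ nss = true → ∀ i j, i₀ ≤ i → i ≤ j → j < len →
      ∃ a n, H i a n ∧ a ≤ j ∧ j < a + n := by
  intro nss
  induction nss with
  | nil =>
    intro i₀ _ h i j h1 h2 h3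
    have h4 : i₀ = len := Nat.eq_of_beq_eq_true h
    omega
  | cons ns nss ih =>
    intro i₀ hR h i j h1 h2 h3
    have h0 : (Nat.beq (Nat.add i₀ ns.sum) len && nssOk len (Nat.succ i₀) nss) = true := h
    rw [Bool.and_eq_true] at h0
    have h4 : i₀ + ns.sum = len := Nat.eq_of_beq_eq_true h0.1
    by_cases h5 : i = i₀
    · subst h5
      exact hR.1.exists j h2 (by omega)
    · exact ih hR.2 h0.2 i j (by
        show i₀ + 1 ≤ i
        omega) h2 h3

/-! ## the soundness -/

section

variable {NT : ℕ} {TL G : ℕ → ℕ} {lanes : ℕ → ℕ → Set ℕ} {run : ℕ → ℕ → ℕ → ℕ → ℕ → ℕ}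
  {typ nl : ℕ → ℕ} {ln : ℕ → ℕ → ℕ}

/-- the rows of a batch -/
theorem rowDead_of_batch {o : ℕ → SOps} (ho : ∀ s, s ≤ 12 → DOK (o s) (CD s) PW)
    (htyp : ∀ t, typ t < 2 ^ 165) (hln : ∀ t i, ln t i < 2 ^ 330)
    {b : List (ℕ × List ℕ × List (List ℕ))} (h : dBatch o typ b = true)
    (ht : tieB nl ln (rowsOf b) = true) : ∀ t ∈ b.map Prod.fst, RowDead typ nl ln t := by
  intro t hb
  obtain ⟨x, hx, rfl⟩ := List.mem_map.1 hb
  have h1 := dBatch_mem h x hx
  have h2 := tieB_mem ht (x.1, x.2.1) (List.mem_map.2 ⟨x, hx, rfl⟩)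
  exact kill_of_rowOk (q := qD) ho htyp hln
    (fun T B l e hT hl he hQ h12 h11 => pw_qD hT hl he hQ h12 h11) h2 h1

/-- a row from its units -/
theorem rowDead_of_units {o : ℕ → SOps} (ho : ∀ s, s ≤ 12 → DOK (o s) (CD s) PW)
    (htyp : ∀ t, typ t < 2 ^ 165) (hln : ∀ t i, ln t i < 2 ^ 330) {t : ℕ} {ls : List ℕ}
    (hls : rowL nl ln t = ls) {nss : List (List ℕ)} (hn : nssOk ls.length 0 nss = true)
    (hu : RowUnits (fun i a n => ∃ cs, dUnit o (typ t) ls i a n cs = true) 0 nss) :
    RowDead typ nl ln t := by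
  intro i j hij hj
  have hlen : ls.length = nl t := by
    rw [← hls]
    unfold rowL
    rw [List.length_map, List.length_range]
  have hget : ∀ k, k < nl t → ls[k]? = some (ln t k) := by
    intro k hk
    rw [← hls]
    unfold rowL
    rw [List.getElem?_map, List.getElem?_range hk]
    rfl
  obtain ⟨a, n, ⟨cs, h1⟩, haj, hjn⟩ := hu.exists hn i j (Nat.zero_le i) hij (by omega)
  unfold dUnit at h1
  have e1 : ls.getD i 0 = ln t i := by
    rw [List.getD_eq_getElem?_getD, hget i (by omega)]
    rfl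
  have e2 : Nat.add (Nat.shiftLeft (typ t) 330) (ln t i) = typ t * 2 ^ 330 + ln t i := by
    show typ t <<< 330 + ln t i = _
    rw [Nat.shiftLeft_eq]
  rw [e1, e2] at h1
  have hmem : ∀ e ∈ ls, e < 2 ^ 330 := by
    intro e he
    rw [← hls] at he
    obtain ⟨k, -, rfl⟩ := List.mem_map.1 he
    exact hln t k
  refine rOk_sound ho (htyp t) (hln t i) (fun B e he hQ h12 h11 =>
    pw_qD (htyp t) (hln t i) he hQ h12 h11) _ cs
    (fun e he => hmem e (List.mem_of_mem_drop (List.mem_of_mem_take he))) h1 (ln t j) ?_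
  rw [List.mem_iff_getElem?]
  refine ⟨j - a, ?_⟩
  rw [List.getElem?_take, if_pos (by omega), List.getElem?_drop,
    show a + (j - a) = j by omega]
  exact hget j hj

end

/-! ## the cover -/

/-- the bit mask of a list of indices -/
def bm (ts : List ℕ) : ℕ := @List.rec ℕ (fun _ => ℕ) 0 (fun t _ ih => Nat.lor ih (Nat.pow 2 t)) ts

theorem testBit_bm {t : ℕ} : ∀ {ts : List ℕ}, (bm ts).testBit t = true → t ∈ ts := by
  intro ts
  induction ts with
  | nil =>
    intro h
    have h1 : (bm []).testBit t = false := Nat.zero_testBit t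
    rw [h1] at h
    exact absurd h Bool.false_ne_true
  | cons x ts ih =>
    intro h
    have h1 : bm (x :: ts) = bm ts ||| 2 ^ x := rfl
    rw [h1, Nat.testBit_or, Bool.or_eq_true] at h
    rcases h with h | h
    · exact List.mem_cons_of_mem _ (ih h)
    · rw [Nat.testBit_two_pow, decide_eq_true_eq] at h
      rw [h]
      exact List.mem_cons_self

/-- every type with at least 23 blocks has its bit -/
def covM (typ : ℕ → ℕ) (M n : ℕ) : Bool :=
  @Nat.rec (fun _ => Bool) true (fun t ih =>
    @Bool.rec (fun _ => Bool) false ih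
      (Nat.blt (popR (typ t)) 23 || Nat.beq (Nat.land (Nat.shiftRight M t) 1) 1)) n

theorem covM_sound {typ : ℕ → ℕ} {M : ℕ} : ∀ {n : ℕ}, covM typ M n = true → ∀ t < n,
    23 ≤ popR (typ t) → M.testBit t = true := by
  intro n
  induction n with
  | zero => exact fun _ t ht => absurd ht (Nat.not_lt_zero t)
  | succ n ih =>
    intro h t ht hp
    have h0 : (bif (Nat.blt (popR (typ n)) 23 || Nat.beq (Nat.land (Nat.shiftRight M n) 1) 1)
        then covM typ M n else false) = true := by
      rw [← rec_cond]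
      exact h
    obtain ⟨h1, h2⟩ := bif_true h0
    by_cases h3 : t = n
    · subst h3
      rw [Bool.or_eq_true] at h1
      rcases h1 with h1 | h1
      · rw [Nat.blt_eq] at h1
        omega
      · have h4 : (M >>> t) &&& 1 = 1 := Nat.eq_of_beq_eq_true h1
        rw [Nat.and_one_is_mod] at h4
        rw [Nat.testBit_eq_decide_div_mod_eq, decide_eq_true_eq, ← Nat.shiftRight_eq_div_pow]
        exact h4
    · exact ih h2 t (by omega) hp

/-- **stage D from dead rows** -/
theorem stD2_rows {reps : List ℕ} (hR : RootOK 6 (fun _ => True) reps) {NR : ℕ}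
    {typ nl : ℕ → ℕ} {ln : ℕ → ℕ → ℕ} (htyp : ∀ t, typ t < 2 ^ 165)
    (hln : ∀ t i, ln t i < 2 ^ 330)
    (hF : FlagOK reps NR typ fun t => {E | ∃ i < nl t, E = fam 11 4 (ln t i)})
    (hT : ∀ t, InR NR t → 23 ≤ (fam 11 3 (typ t)).card →
      TableOK (typ t) 6 (fun _ => True) {E | ∃ i < nl t, E = fam 11 4 (ln t i)})
    {ts : List ℕ} (hts : ∀ t ∈ ts, RowDead typ nl ln t)
    (hcov : covM typ (bm ts) NR = true) : StD2 := by
  refine stD2_of hR htyp hln hF hT ?_
  intro t ht hc
  rw [card_fam_eq (by norm_num) (lt_of_lt_of_le (htyp t) (by decide)) (by decide)] at hc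
  exact hts t (testBit_bm (covM_sound hcov t ht.2 hc))

end Pool.Agent.Helper47.TY
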