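import Pool.Agent.Helper33.TY.SPair
import Pool.Agent.Helper7.TY.Flags
import Pool.Agent.Helper4.CV.Stages2

/-!
MP_8ee768_co, project TH-Y', stage D: the driver.

A light pair with excess at least 2 is moved to `12, 11`; its pair link is the type `t` of
helper7's table and both halves are lanes of the row `t`, the one of `12` with index `i`, the one
of `11` with index `j`, `i ≤ j`.
-/

set_option autoImplicit false
set_option maxRecDepth 100000

namespace Pool.Agent.Helper47.TY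

open Finset
open Pool.Agent.Helper89.CV (OddCover ofMask)
open Pool.Agent.Helper97.CV Pool.Agent.Helper79.CV
open Pool.Agent.Helper82.TY (below Best)
open Pool.Agent.Helper4.CV Pool.Agent.Helper33.TY Pool.Agent.Helper7.TY

/-- the context of stage D -/
structure QD (B : Finset (Finset (Fin 13))) (x y : Fin 13) : Prop where
  best : Best B
  noP : NoP B
  ne : x ≠ y
  hx : MM B x ≤ 6
  hy : MM B y ≤ 6
  two : 2 ≤ mm B x y

theorem noP_map {B : Finset (Finset (Fin 13))} (hB : OddCover B) (h : NoP B)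
    (σ : Equiv.Perm (Fin 13)) : NoP (mapF σ B) := by
  intro x y z hxy hxz hyz hx hy hz h1
  rw [MM_mapF' hB] at hx hy hz
  have h3 : σ.symm x ≠ σ.symm y := σ.symm.injective.ne hxy
  have h4 : σ.symm x ≠ σ.symm z := σ.symm.injective.ne hxz
  have h5 := mm_mapF hB σ h3
  have h6 := mm_mapF hB σ h4
  rw [Equiv.apply_symm_apply, Equiv.apply_symm_apply] at h5 h6
  rw [h6]
  exact h _ _ _ h3 h4 (σ.symm.injective.ne hyz) hx hy hz (by rw [← h5]; exact h1)

theorem QD.map {B : Finset (Finset (Fin 13))} {x y : Fin 13} (h : QD B x y)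
    (σ : Equiv.Perm (Fin 13)) : QD (mapF σ B) (σ x) (σ y) := by
  have hB := h.best.odd
  refine ⟨h.best.map σ, noP_map hB h.noP σ, σ.injective.ne h.ne, ?_, ?_, ?_⟩
  · rw [MM_mapF hB]
    exact h.hx
  · rw [MM_mapF hB]
    exact h.hy
  · rw [mm_mapF hB σ h.ne]
    exact h.two

theorem inv_QD : Inv₂ QD := fun σ _ _ _ h => h.map σ

theorem QD.symm {B : Finset (Finset (Fin 13))} {x y : Fin 13} (h : QD B x y) : QD B y x :=
  ⟨h.best, h.noP, h.ne.symm, h.hy, h.hx, by rw [mm_comm]; exact h.two⟩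

/-- the other neighbours of the pair are heavy -/
theorem QD.heavy {B : Finset (Finset (Fin 13))} {x y : Fin 13} (h : QD B x y) {z : Fin 13}
    (hxz : x ≠ z) (hyz : y ≠ z) (h2 : 1 ≤ mm B x z ∨ 1 ≤ mm B y z) : 8 ≤ MM B z :=
  h.noP.heavy h.best.odd h.ne hxz hyz h.hx h.hy (le_trans (by norm_num) h.two) h2

/-! ## families with given parts -/

theorem eq_of_parts {D E : Finset (Finset (Fin 13))} (h1 : link D 11 = link E 11)
    (h2 : D.filter (fun s => (11 : Fin 13) ∉ s) = E.filter (fun s => (11 : Fin 13) ∉ s)) :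
    D = E := by
  ext b
  by_cases hb : (11 : Fin 13) ∈ b
  · rw [mem_iff_erase_mem_link hb, mem_iff_erase_mem_link hb, h1]
  · have h3 : b ∈ D.filter (fun s => (11 : Fin 13) ∉ s) ↔
        b ∈ E.filter (fun s => (11 : Fin 13) ∉ s) := by rw [h2]
    rw [mem_filter, mem_filter] at h3
    exact ⟨fun h => (h3.1 ⟨h, hb⟩).1, fun h => (h3.2 ⟨h, hb⟩).1⟩

/-- a family is a code from its link at `11` and its other part -/
theorem eq_fam_of_parts {D : Finset (Finset (Fin 13))} {T l : ℕ} (hT : T < 2 ^ 165)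
    (hl : l < 2 ^ 330) (h1 : link D 11 = fam 11 3 T)
    (h2 : D.filter (fun s => (11 : Fin 13) ∉ s) = fam 11 4 l) :
    D = fam 12 4 (T * 2 ^ 330 + l) := by
  obtain ⟨h3, h4⟩ := link_fam_last hT hl
  exact eq_of_parts (h1.trans h3.symm) (h2.trans h4.symm)

/-- the part of the link avoiding the centre from the lane -/
theorem filter_of_lane {B : Finset (Finset (Fin 13))} {l : ℕ}
    (h : lane B 11 = cone 11 (fam 11 4 l)) :
    (link B 11).filter (fun s => (12 : Fin 13) ∉ s) = fam 11 4 l := by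
  have h11 : ∀ s ∈ fam 11 4 l, (11 : Fin 13) ∉ s := by
    intro s hs hm
    have h1 := mk_lt_iff.1 (sub_of_mem_fam (by norm_num) hs).1 _ hm
    exact absurd h1 (by decide)
  ext s
  rw [mem_filter, mem_link]
  constructor
  · rintro ⟨⟨h1, h2⟩, h3⟩
    have h4 : insert 11 s ∈ lane B 11 := by
      rw [mem_lane]
      refine ⟨h2, mem_insert_self _ _, ?_⟩
      rw [mem_insert, not_or]
      exact ⟨by decide, h3⟩
    rw [h, mem_cone h11, erase_insert h1] at h4
    exact h4.2
  · intro hs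
    have h1 := h11 s hs
    have h4 : insert 11 s ∈ lane B 11 := by
      rw [h, mem_cone h11, erase_insert h1]
      exact ⟨mem_insert_self _ _, hs⟩
    rw [mem_lane] at h4
    exact ⟨⟨h1, h4.1⟩, fun h5 => h4.2.2 (mem_insert_of_mem h5)⟩

theorem swap_fix {F : Finset (Finset (Fin 13))} (h : ∀ s ∈ F, ∀ a ∈ s, a.val < 11) :
    mapF (Equiv.swap 11 12) F = F := by
  refine mapF_eq_self fun s hs a ha => ?_
  have h1 := h s hs a ha
  refine Equiv.swap_apply_of_ne_of_ne ?_ ?_
  · rintro rfl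
    exact absurd h1 (by decide)
  · rintro rfl
    exact absurd h1 (by decide)

theorem lt_of_mem_fam11 {k l : ℕ} : ∀ s ∈ fam 11 k l, ∀ a ∈ s, a.val < 11 :=
  fun s hs a ha => mk_lt_iff.1 (sub_of_mem_fam (by norm_num) hs).1 a ha

/-- the pair frame after exchanging the two points -/
theorem pair_swap {B : Finset (Finset (Fin 13))} {T l l' : ℕ} (hT : T < 2 ^ 165)
    (hl : l < 2 ^ 330) (hl' : l' < 2 ^ 330) (h12 : link B 12 = fam 12 4 (T * 2 ^ 330 + l))
    (h11 : lane B 11 = cone 11 (fam 11 4 l')) :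
    link (mapF (Equiv.swap 11 12) B) 12 = fam 12 4 (T * 2 ^ 330 + l') ∧
      lane (mapF (Equiv.swap 11 12) B) 11 = cone 11 (fam 11 4 l) := by
  obtain ⟨hp1, hp2⟩ := link_fam_last hT hl
  set τ : Equiv.Perm (Fin 13) := Equiv.swap 11 12 with hτ
  have hτ11 : τ 11 = 12 := Equiv.swap_apply_left _ _
  have hτ12 : τ 12 = 11 := Equiv.swap_apply_right _ _
  have hs : τ.symm = τ := Equiv.symm_swap _ _
  have e12 : link (mapF τ B) 12 = mapF τ (link B 11) := by
    rw [← hτ11]
    exact link_mapF τ B 11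
  constructor
  · refine eq_fam_of_parts hT hl' ?_ ?_
    · rw [e12]
      have h1 : link (mapF τ (link B 11)) (τ 12) = mapF τ (link (link B 11) 12) :=
        link_mapF τ _ _
      rw [hτ12, link_comm B 11 12, h12, hp1] at h1
      rw [h1]
      exact swap_fix lt_of_mem_fam11
    · rw [e12, ← mapF_filter τ (link B 11) (fun s => (12 : Fin 13) ∉ s)
        (fun s => (11 : Fin 13) ∉ s), filter_of_lane h11]
      · exact swap_fix lt_of_mem_fam11
      · intro s
        have h1 : (11 : Fin 13) ∈ mapS τ s ↔ (12 : Fin 13) ∈ s := by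
          rw [mem_mapS', hs, hτ11]
        rw [h1]
  · have h1 : lane (mapF τ B) 11 =
        mapF τ (B.filter fun b => (12 : Fin 13) ∈ b ∧ (11 : Fin 13) ∉ b) := by
      unfold lane
      refine (mapF_filter τ B _ _ fun s => ?_).symm
      rw [mem_mapS', mem_mapS', hs, hτ11, hτ12]
    rw [h1, filter_eq_cone B (show (11 : Fin 13) ≠ 12 by decide), h12, hp2, mapF_cone, hτ12]
    congr 1
    exact swap_fix lt_of_mem_fam11

/-- **the pair frame**: a light pair with excess at least 2 can be moved to `12, 11` with both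
halves in the row of the type -/
theorem pair_frame {reps : List ℕ} (hR : RootOK 6 (fun _ => True) reps) {NT : ℕ}
    {typ nl : ℕ → ℕ} {ln : ℕ → ℕ → ℕ} (hty : ∀ t, typ t < 2 ^ 165)
    (hln : ∀ t i, ln t i < 2 ^ 330)
    (hF : FlagOK reps NT typ fun t => {E | ∃ i < nl t, E = fam 11 4 (ln t i)})
    (hT : ∀ t, InR NT t → 23 ≤ (fam 11 3 (typ t)).card →
      TableOK (typ t) 6 (fun _ => True) {E | ∃ i < nl t, E = fam 11 4 (ln t i)})
    {B : Finset (Finset (Fin 13))} {x y : Fin 13} (h : QD B x y) :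
    ∃ t, InR NT t ∧ 23 ≤ (fam 11 3 (typ t)).card ∧ ∃ i < nl t, ∃ j < nl t,
      ∃ σ : Equiv.Perm (Fin 13), σ x = 12 ∧ σ y = 11 ∧
        link (mapF σ B) 12 = fam 12 4 (typ t * 2 ^ 330 + ln t i) ∧
        lane (mapF σ B) 11 = cone 11 (fam 11 4 (ln t j)) := by
  have hB := h.best.odd
  obtain ⟨σ, hσ, r, hr, hlink⟩ := root_wlog hB (P := fun _ => True) (fun _ _ _ => trivial) hR
    h.hx trivial
  have hp : σ y ≠ 12 := by
    rw [← hσ]
    exact σ.injective.ne h.ne.symm
  have hB1 := oddCover_mapF hB σ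
  have hc : (link (fam 12 4 r) (σ y)).card = 19 + 2 * mm B x y := by
    rw [← hlink, card_link_link hB1 hp.symm]
    conv_lhs => rw [← hσ]
    rw [mm_mapF hB σ h.ne]
  have h2 := h.two
  obtain ⟨t, ht, ψ, h12, h11, hψ, i, hi, hE⟩ := hF r hr (σ y) hp (by omega)
  have hB2 := oddCover_mapF hB1 ψ
  have hl12 : link (mapF ψ (mapF σ B)) 12 = mapF ψ (fam 12 4 r) := by
    rw [← hlink]
    conv_lhs => rw [← h12]
    exact link_mapF ψ _ _
  have hcard : 23 ≤ (fam 11 3 (typ t)).card := by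
    rw [← hψ, ← h11, link_mapF, card_mapF, hc]
    omega
  have hlink2 : link (mapF ψ (mapF σ B)) 12 = fam 12 4 (typ t * 2 ^ 330 + ln t i) := by
    rw [hl12]
    exact eq_fam_of_parts (hty t) (hln t i) hψ hE
  have h3 : mapF 1 (link (link (mapF ψ (mapF σ B)) 12) 11) = fam 11 3 (typ t) := by
    rw [mapF_one, hl12, hψ]
  have hM : MM (mapF ψ (mapF σ B)) 11 ≤ 6 := by
    rw [← h11, MM_mapF hB1, MM_mapF hB]
    exact h.hy
  obtain ⟨E, ⟨j, hj, rfl⟩, h4⟩ := linkage hB2 (P := fun _ => True) (fun _ _ _ => trivial)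
    (hT t ht hcard) (σ := 1) rfl rfl h3 hM trivial
  have h5 : (1 : Equiv.Perm (Fin 13)).symm = 1 := rfl
  rw [h5, mapF_one] at h4
  refine ⟨t, ht, hcard, i, hi, j, hj, ψ * σ, ?_, ?_, ?_, ?_⟩
  · rw [Equiv.Perm.mul_apply, hσ, h12]
  · rw [Equiv.Perm.mul_apply, h11]
  · rw [mapF_mul]
    exact hlink2
  · rw [mapF_mul]
    exact h4

/-- **the driver of stage D** -/
theorem stD2_of {reps : List ℕ} (hR : RootOK 6 (fun _ => True) reps) {NT : ℕ}
    {typ nl : ℕ → ℕ} {ln : ℕ → ℕ → ℕ} (hty : ∀ t, typ t < 2 ^ 165)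
    (hln : ∀ t i, ln t i < 2 ^ 330)
    (hF : FlagOK reps NT typ fun t => {E | ∃ i < nl t, E = fam 11 4 (ln t i)})
    (hT : ∀ t, InR NT t → 23 ≤ (fam 11 3 (typ t)).card →
      TableOK (typ t) 6 (fun _ => True) {E | ∃ i < nl t, E = fam 11 4 (ln t i)})
    (hkill : ∀ t, InR NT t → 23 ≤ (fam 11 3 (typ t)).card → ∀ i j, i ≤ j → j < nl t →
      PDead QD (typ t * 2 ^ 330 + ln t i) (cone 11 (fam 11 4 (ln t j)))) : StD2 := by
  intro B hB hN x y hxy hx hy h2
  have h : QD B x y := ⟨hB, hN, hxy, hx, hy, h2⟩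
  obtain ⟨t, ht, hc, i, hi, j, hj, σ, hσx, hσy, hl, hu⟩ := pair_frame hR hty hln hF hT h
  have h1 := h.map σ
  rw [hσx, hσy] at h1
  rcases le_total i j with hij | hij
  · exact hkill t ht hc i j hij hj _ h1 hl hu
  · obtain ⟨h3, h4⟩ := pair_swap (hty t) (hln t i) (hln t j) hl hu
    have h5 := h1.symm.map (Equiv.swap 11 12)
    rw [Equiv.swap_apply_left, Equiv.swap_apply_right] at h5
    exact hkill t ht hc j i hij hi _ h5 h3 h4

end Pool.Agent.Helper47.TY
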