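import Pool.Agent.Helper47.TY.DPair
import Pool.Agent.Helper54.TY.ZStep

/-!
MP_8ee768_co, project TH-Y', stage D: the loops of the engine.

The functions are those of stage S (`zloop`, `pairOk` of helper54); the correctness structure is
`DOK`: the step of a third point shows `8 ≤ MM B 10` (all rows `MM B 10 = 6, 4, 2, 0` of the glued
type). The context of a pair is `CD s`: `QD B 12 11` and `MM B 12 + MM B 11 = s`; the number `s`
is computed from the codes.
-/

set_option autoImplicit false
set_option maxRecDepth 100000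

namespace Pool.Agent.Helper47.TY

open Finset
open Pool.Agent.Helper89.CV (OddCover ofMask)
open Pool.Agent.Helper97.CV Pool.Agent.Helper79.CV
open Pool.Agent.Helper82.TY (below Best popR popR_eq popc card_eq_popc)
open Pool.Agent.Helper4.CV Pool.Agent.Helper33.TY Pool.Agent.Helper7.TY Pool.Agent.Helper54.TY

/-- correctness of the operations -/
structure DOK (o : SOps) (C : Finset (Finset (Fin 13)) → Prop)
    (W : Finset (Finset (Fin 13)) → ℕ → Prop) : Prop where
  odd : ∀ B, C B → OddCover B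
  ex_ok : ∀ B w Q, C B → W B Q → ∀ z : Fin 13, z.val < 11 → z.val = w % 16 →
    ∃ ρ : Equiv.Perm (Fin 13), ρ z = 10 ∧ C (mapF ρ B) ∧ W (mapF ρ B) (o.ex w Q)
  zt_ok : ∀ B h Q c, C B → W B Q → o.zt h Q c ≠ 0 → 8 ≤ MM B 10
  fl_ok : ∀ B Q, C B → W B Q → ∀ z : Fin 13, z.val < 11 → 8 ≤ MM B z → W B (o.fl z.val Q)
  fin_ok : ∀ B Q, C B → W B Q → o.fin Q = false

theorem dloop_sound {o : SOps} {C : Finset (Finset (Fin 13)) → Prop}
    {W : Finset (Finset (Fin 13)) → ℕ → Prop} (ho : DOK o C W) :
    ∀ (n Q c : ℕ) (B : Finset (Finset (Fin 13))), C B → W B Q → zloop o n Q c = false := by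
  intro n
  induction n with
  | zero => exact fun _ _ _ _ _ => rfl
  | succ n ih =>
    intro Q c B hC hW
    rw [← Bool.not_eq_true]
    intro h
    rw [zloop_succ, cond_eq_ite] at h
    split_ifs at h with h1
    · rw [ho.fin_ok B Q hC hW] at h
      exact Bool.false_ne_true h
    · rw [cond_eq_ite] at h
      split_ifs at h with h2
      obtain ⟨h5, h3⟩ := nz_true h
      have h2' : Nat.land (Nat.shiftRight c 16) 15 < 11 := by
        have h4 : (Nat.land (Nat.shiftRight c 16) 15).blt 11 = true := h2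
        rw [Nat.blt_eq] at h4
        exact h4
      generalize hz : Nat.land (Nat.shiftRight c 16) 15 = z at h2' h3
      have hw : (Nat.land (Nat.shiftRight c 16) 1099511627775) % 16 = z := by
        rw [← hz]
        have e1 : (1099511627775 : ℕ) = 2 ^ 40 - 1 := by norm_num
        have e2 : (15 : ℕ) = 2 ^ 4 - 1 := by norm_num
        have e3 : Nat.land (Nat.shiftRight c 16) 1099511627775 =
          (Nat.shiftRight c 16) &&& 1099511627775 := rfl
        have e4 : Nat.land (Nat.shiftRight c 16) 15 = (Nat.shiftRight c 16) &&& 15 := rfl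
        rw [e3, e4, e1, e2, Nat.and_two_pow_sub_one_eq_mod, Nat.and_two_pow_sub_one_eq_mod,
          show (16 : ℕ) = 2 ^ 4 by norm_num, Nat.mod_mod_of_dvd]
        exact pow_dvd_pow 2 (by norm_num)
      have hz13 : z < 13 := by omega
      obtain ⟨ρ, hρ, hC', hW'⟩ := ho.ex_ok B _ Q hC hW ⟨z, hz13⟩ h2' hw.symm
      have h6 := ho.zt_ok _ _ _ _ hC' hW' h5
      have hB := ho.odd B hC
      rw [← hρ, MM_mapF hB] at h6
      have h9 := ih (o.fl z Q) (o.zt (Nat.land c 65535)
        (o.ex (Nat.land (Nat.shiftRight c 16) 1099511627775) Q) (Nat.shiftRight c 56)) B hC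
        (ho.fl_ok B Q hC hW ⟨z, hz13⟩ h2' h6)
      have h3' : zloop o n (o.fl z Q) (o.zt (Nat.land c 65535)
        (o.ex (Nat.land (Nat.shiftRight c 16) 1099511627775) Q) (Nat.shiftRight c 56)) = true := h3
      rw [h9] at h3'
      exact Bool.false_ne_true h3'

/-- no relative form in stage D -/
def rx0 (_ _ _ : ℕ) : Bool := false

theorem dpair_sound {o : SOps} {C : Finset (Finset (Fin 13)) → Prop}
    {W : Finset (Finset (Fin 13)) → ℕ → Prop} (ho : DOK o C W) {q : ℕ → ℕ} {e : ℕ}
    {B : Finset (Finset (Fin 13))} (hC : C B) (hW : W B (q e)) (c : ℕ) :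
    pairOk o q rx0 e c = false := by
  unfold pairOk
  rcases Nat.land c 15 with _ | _ | _ | k
  · rfl
  · exact ho.fin_ok B _ hC hW
  · exact dloop_sound ho _ _ _ B hC hW
  · rfl

/-- the context of a pair with `MM B 12 + MM B 11 = s` -/
def CD (s : ℕ) (B : Finset (Finset (Fin 13))) : Prop := QD B 12 11 ∧ MM B 12 + MM B 11 = s

theorem CD.map {s : ℕ} {B : Finset (Finset (Fin 13))} (h : CD s B) {σ : Equiv.Perm (Fin 13)}
    (h12 : σ 12 = 12) (h11 : σ 11 = 11) : CD s (mapF σ B) := by
  have hB := h.1.best.odd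
  constructor
  · have h1 := h.1.map σ
    rwa [h12, h11] at h1
  · have e1 := MM_mapF hB σ 12
    have e2 := MM_mapF hB σ 11
    rw [h12] at e1
    rw [h11] at e2
    rw [e1, e2]
    exact h.2

/-- the sum of the `MM` of the pair from the codes -/
def thr (T r e : ℕ) : ℕ := Nat.sub (Nat.mul 2 (Nat.add (popR r) (Nat.add (popR e) (popR T)))) 228

theorem two_pow_le_2048 {n : ℕ} (h : n ≤ 2048) : (2 : ℕ) ^ n ≤ 2 ^ 2048 :=
  Nat.pow_le_pow_right (by norm_num) h

theorem card_fam_eq {n k N : ℕ} (hn : n ≤ 13) (hN : N < 2 ^ n.choose k)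
    (h : n.choose k ≤ 2048) : (fam n k N).card = popR N := by
  rw [popR_eq (lt_of_lt_of_le hN (two_pow_le_2048 h)),
    card_eq_popc hn fun s hs => sub_of_mem_fam hn hs, enc_fam hn hN]

theorem card_cone11 {l : ℕ} : (cone 11 (fam 11 4 l)).card = (fam 11 4 l).card := by
  unfold cone
  refine card_image_of_injOn ?_
  intro s hs t ht hst
  have h : ∀ s ∈ fam 11 4 l, (11 : Fin 13) ∉ s := by
    intro s hs hm
    exact absurd (lt_of_mem_fam11 s hs _ hm) (by decide)
  have h1 : (insert 11 s).erase (11 : Fin 13) = (insert 11 t).erase 11 :=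
    congrArg (fun u => u.erase (11 : Fin 13)) hst
  rwa [erase_insert (h s hs), erase_insert (h t ht)] at h1

theorem sum_of_frame {B : Finset (Finset (Fin 13))} (hB : OddCover B) {T l l' : ℕ}
    (hT : T < 2 ^ 165) (hl : l < 2 ^ 330) (hl' : l' < 2 ^ 330)
    (h12 : link B 12 = fam 12 4 (T * 2 ^ 330 + l)) (h11 : lane B 11 = cone 11 (fam 11 4 l')) :
    MM B 12 + MM B 11 = thr T (T * 2 ^ 330 + l) l' := by
  have hr : T * 2 ^ 330 + l < 2 ^ (12 : ℕ).choose 4 := by
    have h1 : (12 : ℕ).choose 4 = 165 + 330 := by decide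
    rw [h1, pow_add]
    calc T * 2 ^ 330 + l < T * 2 ^ 330 + 2 ^ 330 := by omega
      _ = (T + 1) * 2 ^ 330 := by ring
      _ ≤ 2 ^ 165 * 2 ^ 330 := Nat.mul_le_mul_right _ hT
  have e1 := two_mul_card_link hB 12
  have e2 := two_mul_card_lane hB (p := 11) (by decide)
  have e3 := card_link_link hB (show (12 : Fin 13) ≠ 11 by decide)
  have c1 : (link B 12).card = popR (T * 2 ^ 330 + l) := by
    rw [h12]
    exact card_fam_eq (by norm_num) hr (by decide)
  have c2 : (lane B 11).card = popR l' := by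
    rw [h11, card_cone11]
    exact card_fam_eq (by norm_num) (lt_of_lt_of_le hl' (by decide)) (by decide)
  have c3 : (link (link B 12) 11).card = popR T := by
    rw [h12, (link_fam_last hT hl).1]
    exact card_fam_eq (by norm_num) (lt_of_lt_of_le hT (by decide)) (by decide)
  show MM B 12 + MM B 11 = 2 * (popR (T * 2 ^ 330 + l) + (popR l' + popR T)) - 228
  omega

/-- the entries of one root -/
def rOk (o : ℕ → SOps) (q : ℕ → ℕ → ℕ) (T r : ℕ) (es : List ℕ) : List ℕ → Bool :=
  @List.rec ℕ (fun _ => List ℕ → Bool) (fun _ => true)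
    (fun e _ ih cs => @List.rec ℕ (fun _ => Bool) false
      (fun c cs' _ => @Bool.rec (fun _ => Bool) false (ih cs')
        (pairOk (o (thr T r e)) (q r) rx0 e c)) cs) es

theorem rOk_cons (o : ℕ → SOps) (q : ℕ → ℕ → ℕ) (T r e : ℕ) (es : List ℕ) (c : ℕ)
    (cs : List ℕ) : rOk o q T r (e :: es) (c :: cs) =
      (bif pairOk (o (thr T r e)) (q r) rx0 e c then rOk o q T r es cs else false) := by
  rw [← rec_cond]
  rfl

/-- the roots of one row -/
def rowOk (o : ℕ → SOps) (q : ℕ → ℕ → ℕ) (T : ℕ) (ls : List ℕ) : List (List ℕ) → Bool :=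
  @List.rec ℕ (fun _ => List (List ℕ) → Bool) (fun _ => true)
    (fun l ls' ih css => @List.rec (List ℕ) (fun _ => Bool) false
      (fun cs css' _ => @Bool.rec (fun _ => Bool) false (ih css')
        (rOk o q T (Nat.add (Nat.shiftLeft T 330) l) (l :: ls') cs)) css) ls

theorem rowOk_cons (o : ℕ → SOps) (q : ℕ → ℕ → ℕ) (T l : ℕ) (ls cs : List ℕ)
    (css : List (List ℕ)) : rowOk o q T (l :: ls) (cs :: css) =
      (bif rOk o q T (Nat.add (Nat.shiftLeft T 330) l) (l :: ls) cs then rowOk o q T ls css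
        else false) := by
  rw [← rec_cond]
  rfl

theorem bif_true {a b : Bool} (h : (bif a then b else false) = true) : a = true ∧ b = true := by
  cases a
  · exact absurd h Bool.false_ne_true
  · exact ⟨rfl, h⟩

theorem rOk_sound {o : ℕ → SOps} {q : ℕ → ℕ → ℕ} {W : Finset (Finset (Fin 13)) → ℕ → Prop}
    (ho : ∀ s, s ≤ 12 → DOK (o s) (CD s) W) {T l : ℕ} (hT : T < 2 ^ 165) (hl : l < 2 ^ 330)
    (hq : ∀ (B : Finset (Finset (Fin 13))) (e : ℕ), e < 2 ^ 330 → QD B 12 11 →
      link B 12 = fam 12 4 (T * 2 ^ 330 + l) → lane B 11 = cone 11 (fam 11 4 e) →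
        W B (q (T * 2 ^ 330 + l) e)) :
    ∀ (es cs : List ℕ), (∀ e ∈ es, e < 2 ^ 330) → rOk o q T (T * 2 ^ 330 + l) es cs = true →
      ∀ e ∈ es, PDead QD (T * 2 ^ 330 + l) (cone 11 (fam 11 4 e)) := by
  intro es
  induction es with
  | nil => exact fun _ _ _ e he => absurd he List.not_mem_nil
  | cons e es ih =>
    intro cs hes h
    cases cs with
    | nil => exact absurd h Bool.false_ne_true
    | cons c cs =>
      rw [rOk_cons] at h
      obtain ⟨h1, h2⟩ := bif_true h
      intro e' he'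
      rcases List.mem_cons.1 he' with rfl | he'
      · intro B hQ h12 h11
        have hQ' : QD B 12 11 := hQ
        have hB := hQ'.best.odd
        have he := hes e' (List.mem_cons_self)
        have hsum := sum_of_frame hB hT hl he h12 h11
        have hle : thr T (T * 2 ^ 330 + l) e' ≤ 12 := by
          have := hQ'.hx
          have := hQ'.hy
          omega
        have h3 := dpair_sound (ho (thr T (T * 2 ^ 330 + l) e') hle)
          (q := q (T * 2 ^ 330 + l)) (e := e') (B := B) ⟨hQ', hsum⟩ (hq B e' he hQ' h12 h11) c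
        rw [h3] at h1
        exact Bool.false_ne_true h1
      · exact ih cs (fun a ha => hes a (List.mem_cons_of_mem _ ha)) h2 e' he'

theorem rowOk_sound {o : ℕ → SOps} {q : ℕ → ℕ → ℕ} {W : Finset (Finset (Fin 13)) → ℕ → Prop}
    (ho : ∀ s, s ≤ 12 → DOK (o s) (CD s) W) {T : ℕ} (hT : T < 2 ^ 165)
    (hq : ∀ (B : Finset (Finset (Fin 13))) (l e : ℕ), l < 2 ^ 330 → e < 2 ^ 330 → QD B 12 11 →
      link B 12 = fam 12 4 (T * 2 ^ 330 + l) → lane B 11 = cone 11 (fam 11 4 e) →
        W B (q (T * 2 ^ 330 + l) e)) :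
    ∀ (ls : List ℕ) (css : List (List ℕ)), (∀ e ∈ ls, e < 2 ^ 330) → rowOk o q T ls css = true →
      ∀ (i j : ℕ) (hij : i ≤ j) (hj : j < ls.length),
        PDead QD (T * 2 ^ 330 + ls[i]'(lt_of_le_of_lt hij hj)) (cone 11 (fam 11 4 ls[j])) := by
  intro ls
  induction ls with
  | nil => exact fun _ _ _ i j _ hj => absurd hj (Nat.not_lt_zero j)
  | cons l ls ih =>
    intro css hls h
    cases css with
    | nil => exact absurd h Bool.false_ne_true
    | cons cs css =>
      rw [rowOk_cons] at h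
      obtain ⟨h1, h2⟩ := bif_true h
      intro i j hij hj
      cases i with
      | zero =>
        have e1 : Nat.add (Nat.shiftLeft T 330) l = T * 2 ^ 330 + l := by
          show T <<< 330 + l = _
          rw [Nat.shiftLeft_eq]
        rw [e1] at h1
        have hl := hls l List.mem_cons_self
        exact rOk_sound ho hT hl (fun B e he => hq B l e hl he) _ cs hls h1 _
          (List.getElem_mem hj)
      | succ i =>
        cases j with
        | zero => exact absurd hij (Nat.not_succ_le_zero i)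
        | succ j =>
          have h3 := ih css (fun a ha => hls a (List.mem_cons_of_mem _ ha)) h2 i j
            (Nat.le_of_succ_le_succ hij) (Nat.lt_of_succ_lt_succ hj)
          simpa only [List.getElem_cons_succ] using h3

/-- the pairs of a row, in the form of the driver -/
theorem kill_of_rowOk {o : ℕ → SOps} {q : ℕ → ℕ → ℕ → ℕ}
    {W : Finset (Finset (Fin 13)) → ℕ → Prop}
    (ho : ∀ s, s ≤ 12 → DOK (o s) (CD s) W) {typ nl : ℕ → ℕ} {ln : ℕ → ℕ → ℕ}
    (hty : ∀ t, typ t < 2 ^ 165) (hln : ∀ t i, ln t i < 2 ^ 330)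
    (hq : ∀ (T : ℕ) (B : Finset (Finset (Fin 13))) (l e : ℕ), T < 2 ^ 165 → l < 2 ^ 330 →
      e < 2 ^ 330 → QD B 12 11 → link B 12 = fam 12 4 (T * 2 ^ 330 + l) →
      lane B 11 = cone 11 (fam 11 4 e) → W B (q T (T * 2 ^ 330 + l) e))
    {t : ℕ} {ls : List ℕ} {css : List (List ℕ)}
    (hls : (List.range (nl t)).map (ln t) = ls) (h : rowOk o (q (typ t)) (typ t) ls css = true) :
    ∀ i j, i ≤ j → j < nl t →
      PDead QD (typ t * 2 ^ 330 + ln t i) (cone 11 (fam 11 4 (ln t j))) := by
  subst hls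
  intro i j hij hj
  have h1 := rowOk_sound ho (hty t) (fun B l e hl he => hq (typ t) B l e (hty t) hl he) _ css
    (fun e he => by
      obtain ⟨k, -, rfl⟩ := List.mem_map.1 he
      exact hln t k) h i j hij (by rw [List.length_map, List.length_range]; exact hj)
  simpa only [List.getElem_map, List.getElem_range] using h1

end Pool.Agent.Helper47.TY
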