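import Pool.Agent.Helper47.TY.DRun
import Pool.Agent.Helper47.GM.Rows
import Pool.Agent.Helper59.GC.Top

/-!
MP_8ee768_co, project TH-Y', stage D: the operations `oD` of the run modules.
-/

set_option autoImplicit false
set_option exponentiation.threshold 20000

namespace Pool.Agent.Helper47.TY

open Finset
open Pool.Agent.Helper97.CV Pool.Agent.Helper79.CV
open Pool.Agent.Helper33.TY (PW)
open Pool.Agent.Helper54.TY
open Pool.Agent.Helper47.GM Pool.Agent.Helper59.GC
open Pool.Agent.Helper59.TY (gath tA tB)

/-- **the operations of stage D** -/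
noncomputable def oD : ℕ → SOps := dops gC 10274 (runD gmPiece gmP gmN)

/-- the row runs of `oD` -/
theorem runOK_oD : RunOK 10274 lanesM (runD gmPiece gmP gmN) := runOK_runD 10274 gmPiece gmP gmN

/-- the glued rows are complete for `MM = 0, 2, 4, 6` -/
def GlueD : Prop := ∀ m, m ≤ 6 → Even m → ∀ n, 2 * n = 114 + m → ∀ t < 10274,
  GlueN n (Pool.Agent.Helper67.GT.gG t) (lanesM m t)

/-- the leaves belong to the codes -/
def TieD : Prop := ∀ t < 10274, gath (tA (gC t)) (tB (gC t)) = Pool.Agent.Helper67.GT.gG t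

/-- the operations are correct -/
theorem dok_oD (htab : GlueD) (hTL : TieD) : ∀ s, s ≤ 12 → DOK (oD s) (CD s) PW :=
  dok_dops htab hTL runOK_oD

end Pool.Agent.Helper47.TY
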