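import Pool.Agent.Helper33.TY.PBridge

/-!
MP_8ee768_co, project TH-Y', stage D: the kill test on the pair word with lower bounds `0`
(`8` for the flagged points), and the flags of the neighbours of the pair.
-/

set_option autoImplicit false
set_option exponentiation.threshold 20000

namespace Pool.Agent.Helper47.TY

open Finset
open Pool.Agent.Helper89.CV (OddCover ofMask)
open Pool.Agent.Helper97.CV Pool.Agent.Helper79.CV Pool.Agent.Helper33.CV
open Pool.Agent.Helper63.SIMD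
open Pool.Agent.Helper25.TY (R11 mem_R11 Lam_ge)
open Pool.Agent.Helper33.TY

/-! ## the kill test -/

/-- lower bounds from the flags: `0` and `8` -/
def lQ0 (Q : ℕ) : ℕ := Nat.shiftRight (Nat.land Q m64_1) 3

/-- the kill test, raw operations -/
def dkill (T Q : ℕ) : Bool :=
  Kill11.kill1 Kill11.kC2 (Kill11.kM2 1) (Kill11.kT 1 2) (Kill11.kT 1 5) (Kill11.kT 1 8)
    (Kill11.kO2 1) Kill11.kC1 (Kill11.kM1 1) (Kill11.kH 1) (Kill11.kEv 1) T
    (Q &&& m1_4) ((Q >>> 1) &&& m1_4) (Q &&& m255_2) ((Q &&& m63_1) + m1_1)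
    (m128_1 - lQ0 Q) (lQ0 Q)

theorem shr3_bw (h : Finset (Fin 13) → ℕ) : bw (fun s => 8 * h s) >>> 3 = bw h := by
  rw [← bw_mul, Nat.shiftRight_eq_div_pow]
  exact Nat.mul_div_cancel_left _ (by norm_num)

theorem word_f3 {B : Finset (Finset (Fin 13))} {f : Finset (Fin 13) → ℕ} (hB : OddCover B)
    (h157 : B.card ≤ 157) (hf : ∀ s, f s ≤ 1) :
    (bw (qf B f) &&& m64_1) >>> 3 = bw (lS fun s => 8 * f s) := by
  rw [m64_1_eq, bw_land_lay' (fun s hs => qf_lt256 hB h157 hf hs) (by norm_num),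
    ← shr3_bw (lS fun s => 8 * f s)]
  refine congrArg (fun t => t >>> 3) (bw_congr fun s hs => ?_)
  unfold lS
  by_cases h1 : s.card = 1
  · rw [if_pos h1, if_pos h1]
    unfold qf
    rw [if_neg (by omega), if_neg (by omega), if_neg (by omega), if_pos h1]
    obtain ⟨u, rfl⟩ := card_eq_one.1 h1
    rw [sum_singleton]
    have := hrow_le hB h157 (mem_R11.1 (singleton_subset_iff.1 hs))
    rw [(land_63 (by omega) (hf {u})).2]
    show 64 * f {u} = 8 * (8 * f {u})
    omega
  · rw [if_neg h1, if_neg h1]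

/-- the data of a pair word -/
theorem pw_data0 {B : Finset (Finset (Fin 13))} (hB : OddCover B) (h157 : B.card ≤ 157)
    {Q : ℕ} (hQ : PW B Q) :
    ∃ l : Finset (Fin 13) → ℕ, (∀ s, l s ≤ 8) ∧ (∀ z : Fin 13, z.val < 11 → l {z} ≤ MM B z) ∧
      Q &&& m1_4 = pk 8 2048 (mkF (uS B)) ∧ (Q >>> 1) &&& m1_4 = pk 8 2048 (mkF (vS B)) ∧
      Q &&& m255_2 = pk 8 2048 (mkF (pS B)) ∧
      (Q &&& m63_1) + m1_1 = pk 8 2048 (mkF (aS B)) ∧
      lQ0 Q = pk 8 2048 (mkF (lS l)) ∧
      m128_1 - lQ0 Q = pk 8 2048 (fun r => Kill11.onS Kill11.P1 128 r - mkF (lS l) r) := by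
  unfold PW at hQ
  obtain ⟨f, hQf, hf, h8⟩ := hQ
  rw [hQf]
  have hl : ∀ s : Finset (Fin 13), 8 * f s ≤ 8 := fun s => by
    have := hf s
    omega
  have e : lQ0 (bw (qf B f)) = bw (lS fun s => 8 * f s) := word_f3 hB h157 hf
  refine ⟨fun s => 8 * f s, hl, ?_, ?_, ?_, ?_, ?_, ?_, ?_⟩
  · intro z hz
    have h2 := h8 z hz
    have h3 := hf {z}
    show 8 * f {z} ≤ MM B z
    rcases Nat.le_one_iff_eq_zero_or_eq_one.1 h3 with h4 | h4
    · rw [h4]
      exact Nat.zero_le _
    · rw [h4]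
      exact h2 h4
  · rw [pk_mkF]
    exact word_u hB h157 hf
  · rw [pk_mkF]
    exact word_v hB h157 hf
  · rw [pk_mkF]
    exact word_p hB h157 hf
  · rw [pk_mkF]
    exact word_a hB h157 hf
  · rw [pk_mkF]
    exact e
  · rw [e]
    exact word_ls fun s => (hl s).trans (by norm_num)

/-- **soundness of the kill test** -/
theorem dkill_sound {B : Finset (Finset (Fin 13))} (hB : OddCover B) (h157 : B.card ≤ 157)
    {Q : ℕ} (hQ : PW B Q) {T : ℕ} (hT : 88 < T + (MM B 11 + MM B 12)) : dkill T Q = false := by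
  obtain ⟨l, hl8, hl, e1, e2, e3, e4, e5, e6⟩ := pw_data0 hB h157 hQ
  unfold dkill
  rw [e1, e2, e3, e4, e6, e5]
  exact Kill11.kill1_sound hB h157 (ok_pair hB h157 fun s => (hl8 s).trans (by norm_num))
    (sound_pair hB hl) hT

/-! ## flags of the neighbours -/

/-- set the flag at all points with `mm B 12 u + mm B 11 u >= 1` -/
def nbr (Q : ℕ) : ℕ :=
  Nat.lor Q (Nat.land (Nat.add (Nat.land Q m63_1) m63_1) m64_1)

theorem bw_lor {g h : Finset (Fin 13) → ℕ} (hg : ∀ s ⊆ R11, g s < 256)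
    (hh : ∀ s ⊆ R11, h s < 256) : bw g ||| bw h = bw fun s => g s ||| h s :=
  pk_lor (fun _ hi => hg _ (ofMask_subset_R11 hi)) (fun _ hi => hh _ (ofMask_subset_R11 hi))

theorem nbr_field : ∀ x < 31, ∀ f < 2, (x + 64 * f) ||| ((((x + 64 * f) &&& 63) + 63) &&& 64) =
    x + 64 * (if 1 ≤ x then 1 else f) := by decide +kernel

/-- the new flags -/
def fN (B : Finset (Finset (Fin 13))) (f : Finset (Fin 13) → ℕ) (s : Finset (Fin 13)) : ℕ :=
  if 1 ≤ ∑ u ∈ s, (mm B 12 u + mm B 11 u) then 1 else f s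

theorem nbr_bw {B : Finset (Finset (Fin 13))} {f : Finset (Fin 13) → ℕ} (hB : OddCover B)
    (h157 : B.card ≤ 157) (hf : ∀ s, f s ≤ 1) : nbr (bw (qf B f)) = bw (qf B (fN B f)) := by
  have hlt : ∀ s ⊆ R11, qf B f s < 256 := fun s hs => qf_lt256 hB h157 hf hs
  have e1 : bw (qf B f) &&& m63_1 = bw fun s => if s.card = 1 then qf B f s &&& 63 else 0 := by
    rw [m63_1_eq]
    exact bw_land_lay' hlt (by norm_num) 1
  have hland : ∀ x : ℕ, x &&& 63 < 64 := fun x => lt_of_le_of_lt Nat.and_le_right (by norm_num)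
  have e2 : (bw (qf B f) &&& m63_1) + m63_1 =
      bw fun s => (if s.card = 1 then qf B f s &&& 63 else 0) + (if s.card = 1 then 63 else 0) := by
    rw [e1, m63_1_eq]
    unfold lay
    rw [bw_add]
  have e3 : ((bw (qf B f) &&& m63_1) + m63_1) &&& m64_1 =
      bw fun s => if s.card = 1 then ((if s.card = 1 then qf B f s &&& 63 else 0) +
        (if s.card = 1 then 63 else 0)) &&& 64 else 0 := by
    rw [e2, m64_1_eq]
    refine bw_land_lay' (fun s _ => ?_) (by norm_num) 1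
    have := hland (qf B f s)
    split_ifs <;> omega
  show bw (qf B f) ||| (((bw (qf B f) &&& m63_1) + m63_1) &&& m64_1) = _
  rw [e3, bw_lor hlt]
  · refine bw_congr fun s hs => ?_
    by_cases h1 : s.card = 1
    · rw [if_pos h1, if_pos h1, if_pos h1]
      obtain ⟨u, rfl⟩ := card_eq_one.1 h1
      have e4 : ∀ g : Finset (Fin 13) → ℕ, qf B g {u} = (mm B 12 u + mm B 11 u) + 64 * g {u} := by
        intro g
        unfold qf
        rw [if_neg (by omega), if_neg (by omega), if_neg (by omega), if_pos h1, sum_singleton]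
      rw [e4, e4]
      unfold fN
      rw [sum_singleton]
      have h2 := hrow_le hB h157 (mem_R11.1 (singleton_subset_iff.1 hs))
      have h3 := hf {u}
      exact nbr_field _ (by omega) _ (by omega)
    · rw [if_neg h1, Nat.or_zero]
      unfold qf
      by_cases h4 : s.card = 4
      · rw [if_pos h4, if_pos h4]
      · rw [if_neg h4, if_neg h4, if_neg h1, if_neg h1]
  · intro s _
    split_ifs
    · exact lt_of_le_of_lt Nat.and_le_right (by norm_num)
    · norm_num

/-- **the neighbours of the pair are flagged** -/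
theorem pw_nbr {B : Finset (Finset (Fin 13))} (hB : OddCover B) (h157 : B.card ≤ 157) {Q : ℕ}
    (hQ : PW B Q)
    (hn : ∀ u : Fin 13, u.val < 11 → 1 ≤ mm B 12 u + mm B 11 u → 8 ≤ MM B u) :
    PW B (nbr Q) := by
  unfold PW at hQ ⊢
  obtain ⟨f, hQf, hf, h8⟩ := hQ
  refine ⟨fN B f, ?_, ?_, ?_⟩
  · rw [hQf, nbr_bw hB h157 hf]
  · intro s
    unfold fN
    split_ifs
    · exact le_refl 1
    · exact hf s
  · intro u hu h
    unfold fN at h
    rw [sum_singleton] at h
    by_cases h1 : 1 ≤ mm B 12 u + mm B 11 u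
    · exact hn u hu h1
    · rw [if_neg h1] at h
      exact h8 u hu h

end Pool.Agent.Helper47.TY
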