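import Pool.Agent.Helper33.TY.PFin
import Pool.Agent.Helper47.TY.DKill

/-!
MP_8ee768_co, project TH-Y', stage D: the kill test of a pair word with literal constants
(`dkill` with the constants of helper33's `pfin`).
-/

set_option autoImplicit false
set_option exponentiation.threshold 20000

namespace Pool.Agent.Helper47.TY

open Finset
open Pool.Agent.Helper89.CV (OddCover)
open Pool.Agent.Helper97.CV
open Pool.Agent.Helper33.TY

/-- **the final check of a pair**, lower bounds `0` (`8` at the flagged points) -/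
def dfin (T Q : ℕ) : Bool :=
  Nat.ble T (Nat.mod (mxK (lQ0 Q) (xK Q)
    (Nat.land (Nat.add (xK Q) (Nat.sub m128_1 (lQ0 Q))) m128_1)) 255)

theorem dfin_eq (T Q : ℕ) : dfin T Q = dkill T Q :=
  pfin_gen cC2_eq cM2_eq cT2_eq cT5_eq cT8_eq cO2_eq cC1_eq cM1_eq cH_eq cEv_eq T _ _ _ _ _ _

/-- soundness of the final check -/
theorem dfin_sound {B : Finset (Finset (Fin 13))} (hB : OddCover B) (h157 : B.card ≤ 157)
    {Q : ℕ} (hQ : PW B Q) {T : ℕ} (hT : 88 < T + (MM B 11 + MM B 12)) : dfin T Q = false := by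
  rw [dfin_eq]
  exact dkill_sound hB h157 hQ hT

end Pool.Agent.Helper47.TY
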