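import Pool.Agent.Helper47.TY.DStep
import Pool.Agent.Helper47.TY.DFin
import Pool.Agent.Helper47.TY.TExp
import Pool.Agent.Helper33.TY.PFlag
import Pool.Agent.Helper59.TY.G8

/-!
MP_8ee768_co, project TH-Y', stage D: the concrete engine.

`qD T r e` is the pair word of the root `r` (with pair link `T`) and the entry `e`, with the flags
of the neighbours of the pair. `dops` are the operations with the final test `dfin (89 - s)`.
-/

set_option autoImplicit false
set_option maxRecDepth 100000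
set_option exponentiation.threshold 20000

namespace Pool.Agent.Helper47.TY

open Finset
open Pool.Agent.Helper89.CV (OddCover ofMask)
open Pool.Agent.Helper97.CV Pool.Agent.Helper79.CV
open Pool.Agent.Helper4.CV Pool.Agent.Helper33.TY Pool.Agent.Helper7.TY Pool.Agent.Helper54.TY
open Pool.Agent.Helper59.TY (exw tyC tyC_sound gath tA tB)

/-- the pair word with the flags of the neighbours -/
def qD (T r e : ℕ) : ℕ := nbr (pairK (rootK (tX T) (degK (tX T)) r) (tX T) (degK (tX T)) e)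

/-- the neighbours of the pair are heavy -/
theorem QD.nbr_heavy {B : Finset (Finset (Fin 13))} (h : QD B 12 11) :
    ∀ u : Fin 13, u.val < 11 → 1 ≤ mm B 12 u + mm B 11 u → 8 ≤ MM B u := by
  intro u hu h1
  refine h.heavy ?_ ?_ (by omega)
  · rintro rfl
    exact absurd hu (by decide)
  · rintro rfl
    exact absurd hu (by decide)

theorem code_lt {T l : ℕ} (hT : T < 2 ^ 165) (hl : l < 2 ^ 330) : T * 2 ^ 330 + l < 2 ^ 495 := by
  calc T * 2 ^ 330 + l < T * 2 ^ 330 + 2 ^ 330 := by omega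
    _ = (T + 1) * 2 ^ 330 := by ring
    _ ≤ 2 ^ 165 * 2 ^ 330 := Nat.mul_le_mul_right _ hT
    _ = 2 ^ 495 := by rw [← pow_add]

theorem code_shift {T l : ℕ} (hl : l < 2 ^ 330) : (T * 2 ^ 330 + l) >>> 330 = T := by
  rw [Nat.shiftRight_eq_div_pow, Nat.mul_comm, Nat.mul_add_div (Nat.two_pow_pos 330),
    Nat.div_eq_of_lt hl, Nat.add_zero]

theorem pw_qD {T l e : ℕ} (hT : T < 2 ^ 165) (hl : l < 2 ^ 330) (he : e < 2 ^ 330)
    {B : Finset (Finset (Fin 13))} (h : QD B 12 11)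
    (h12 : link B 12 = fam 12 4 (T * 2 ^ 330 + l)) (h11 : lane B 11 = cone 11 (fam 11 4 e)) :
    PW B (qD T (T * 2 ^ 330 + l) e) := by
  have h1 := pw_pairK h.best.odd (code_lt hT hl) he h12 h11
  rw [code_shift hl, ← tX_eq hT] at h1
  exact pw_nbr h.best.odd h.best.le h1 h.nbr_heavy

/-- the operations: `TL` table of the type leaves, `NT` number of types, `run s m t Q c` -/
noncomputable def dops (TL : ℕ → ℕ) (NT : ℕ) (run : ℕ → ℕ → ℕ → ℕ → ℕ → ℕ) (s : ℕ) : SOps :=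
  ⟨exw, dstep (tyC TL NT) (run s), setZ, dfin (Nat.sub 89 s)⟩

/-- correctness of the row runs -/
def RunOK (NT : ℕ) (lanes : ℕ → ℕ → Set ℕ) (run : ℕ → ℕ → ℕ → ℕ → ℕ → ℕ) : Prop :=
  ∀ s, s ≤ 12 → ∀ m, m ≤ 6 → Even m → ∀ B t Q c, CD s B → PW B Q → MM B 10 = m →
    t < NT → enc 10 4 (link B 10) ∈ lanes m t → run s m t Q c ≠ 0 → False

/-- the correctness structure -/
theorem dok_dops {NT : ℕ} {TL G : ℕ → ℕ} {lanes : ℕ → ℕ → Set ℕ}
    {run : ℕ → ℕ → ℕ → ℕ → ℕ → ℕ}
    (htab : ∀ m, m ≤ 6 → Even m → ∀ n, 2 * n = 114 + m → ∀ t < NT, GlueN n (G t) (lanes m t))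
    (hTL : ∀ t < NT, gath (tA (TL t)) (tB (TL t)) = G t) (hrun : RunOK NT lanes run) :
    ∀ s, s ≤ 12 → DOK (dops TL NT run s) (CD s) PW := by
  intro s hs
  refine dok_inst (NT := NT) (G := G) (lanes := lanes) ⟨fun B h => h.1.best.odd, htab,
    fun B t sw Q h hW ht => tyC_sound h.1.best.odd hW hTL ht, hrun s hs⟩
    (fun B Q z hB h157 hW hz h8 => setZ_pw hB h157 hW hz h8) ?_
  intro B Q h hW h1
  have hQ := h.1
  have h2 : dfin (Nat.sub 89 s) Q = false := by
    refine dfin_sound hQ.best.odd hQ.best.le hW ?_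
    have e : Nat.sub 89 s = 89 - s := rfl
    rw [e]
    have := h.2
    omega
  rw [h2] at h1
  exact Bool.false_ne_true h1

/-- **stage D from the tables and the checks of the rows** -/
theorem stD2_main {NT : ℕ} {TL G : ℕ → ℕ} {lanes : ℕ → ℕ → Set ℕ}
    {run : ℕ → ℕ → ℕ → ℕ → ℕ → ℕ}
    (htab : ∀ m, m ≤ 6 → Even m → ∀ n, 2 * n = 114 + m → ∀ t < NT, GlueN n (G t) (lanes m t))
    (hTL : ∀ t < NT, gath (tA (TL t)) (tB (TL t)) = G t) (hrun : RunOK NT lanes run)
    {reps : List ℕ} (hR : RootOK 6 (fun _ => True) reps) {NR : ℕ}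
    {typ nl : ℕ → ℕ} {ln : ℕ → ℕ → ℕ} (htyp : ∀ t, typ t < 2 ^ 165)
    (hln : ∀ t i, ln t i < 2 ^ 330)
    (hF : FlagOK reps NR typ fun t => {E | ∃ i < nl t, E = fam 11 4 (ln t i)})
    (hT : ∀ t, InR NR t → 23 ≤ (fam 11 3 (typ t)).card →
      TableOK (typ t) 6 (fun _ => True) {E | ∃ i < nl t, E = fam 11 4 (ln t i)})
    (hrow : ∀ t, InR NR t → 23 ≤ (fam 11 3 (typ t)).card → ∃ (ls : List ℕ)
      (css : List (List ℕ)), (List.range (nl t)).map (ln t) = ls ∧
        rowOk (dops TL NT run) (qD (typ t)) (typ t) ls css = true) : StD2 := by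
  refine stD2_of hR htyp hln hF hT ?_
  intro t ht hc
  obtain ⟨ls, css, hls, h⟩ := hrow t ht hc
  exact kill_of_rowOk (q := qD) (dok_dops htab hTL hrun) htyp hln
    (fun T B l e hT hl he hQ h12 h11 => pw_qD hT hl he hQ h12 h11) hls h

end Pool.Agent.Helper47.TY
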