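import Pool.Agent.Helper47.TY.DBatch
import Pool.Agent.Helper28.TY.CtS

/-!
MP_8ee768_co, project TH-Y', stage D: the row runs are helper81's chunk runs with helper28's
continuation. `piece m`, `P m t`, `N m t`: the pieces of the lanes with `MM B 10 = m` of the glued
type `t`.
-/

set_option autoImplicit false
set_option exponentiation.threshold 20000

namespace Pool.Agent.Helper47.TY

open Finset
open Pool.Agent.Helper89.CV (OddCover ofMask)
open Pool.Agent.Helper97.CV Pool.Agent.Helper79.CV
open Pool.Agent.Helper33.TY (PW)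
open Pool.Agent.Helper81.TY (chunkRun)
open Pool.Agent.Helper28.TY (ctS chunk_dead)

/-- the lanes in a table of pieces of 64 lanes -/
def laneSet (piece : ℕ → ℕ) (P N : ℕ) : Set ℕ :=
  {x | ∃ k < N, x = (piece (P + k / 64) >>> (210 * (k % 64))) % 2 ^ 210}

/-- **the row run of stage D** -/
def runD (piece P N : ℕ → ℕ → ℕ) (s m t Q c : ℕ) : ℕ :=
  chunkRun (Nat.sub (Nat.sub 89 s) m) 0 false (ctS (Nat.sub (Nat.sub 89 s) m)) (piece m) (P m t)
    (N m t) Q c

/-- the row runs are correct -/
theorem runOK_runD (NT : ℕ) (piece P N : ℕ → ℕ → ℕ) :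
    RunOK NT (fun m t => laneSet (piece m) (P m t) (N m t)) (runD piece P N) := by
  intro s hs m hm _ B t Q c hC hQ h10 _ hmem hne
  obtain ⟨k, hk, hlane⟩ := hmem
  have hB := hC.1.best.odd
  have h157 := hC.1.best.le
  have hsum := hC.2
  refine hne ?_
  refine chunk_dead hB h157 hQ (b := 0) (by norm_num) (fun u _ => Nat.zero_le _)
    (nb := false) (fun h => absurd h Bool.false_ne_true) ?_ hk hlane c
  have e : Nat.sub (Nat.sub 89 s) m = 89 - s - m := rfl
  rw [e]
  omega

end Pool.Agent.Helper47.TY
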