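import Pool.Agent.Helper47.TY.DEng
import Pool.Agent.Helper59.TY.QSwap

/-!
MP_8ee768_co, project TH-Y', stage D: the step of one third point and the correctness structure
of the engine from the statements of the single operations (context `CD s`, word `PW`).

The step compares the glued type once and then runs through the rows `MM B 10 = 6, 4, 2, 0` of
the type with one stream.
-/

set_option autoImplicit false
set_option maxRecDepth 100000

namespace Pool.Agent.Helper47.TY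

open Finset
open Pool.Agent.Helper89.CV (OddCover ofMask)
open Pool.Agent.Helper97.CV Pool.Agent.Helper79.CV
open Pool.Agent.Helper4.CV Pool.Agent.Helper33.TY Pool.Agent.Helper7.TY Pool.Agent.Helper54.TY

/-- go on with a stream which is not 0 -/
def nzN (k E : ℕ) (f : ℕ → ℕ) : ℕ :=
  @Nat.rec (fun _ => ℕ) 0 (fun m _ => f (scc k m)) E

theorem nzN_ne {k E : ℕ} {f : ℕ → ℕ} (h : nzN k E f ≠ 0) : E ≠ 0 ∧ f E ≠ 0 := by
  cases E with
  | zero => exact absurd rfl h
  | succ m => exact ⟨Nat.succ_ne_zero m, h⟩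

/-- the step of stage D: `ty t sw Q` comparison of the type, `run m t Q c` the row `m` -/
def dstep (ty : ℕ → ℕ → ℕ → Bool) (run : ℕ → ℕ → ℕ → ℕ → ℕ) (h Q c : ℕ) : ℕ :=
  bif ty (Nat.land h 16383) (Nat.shiftRight h 14) Q then
    nzN (Nat.add h c) (run 6 (Nat.land h 16383) Q c) fun c1 =>
    nzN (Nat.add h c1) (run 4 (Nat.land h 16383) Q c1) fun c2 =>
    nzN (Nat.add h c2) (run 2 (Nat.land h 16383) Q c2) fun c3 =>
    run 0 (Nat.land h 16383) Q c3
  else 0

/-- correctness of the operations; `lanes m t` is the row of the type `t` for `MM = m` -/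
structure DZOK (ty : ℕ → ℕ → ℕ → Bool) (run : ℕ → ℕ → ℕ → ℕ → ℕ)
    (C : Finset (Finset (Fin 13)) → Prop) (W : Finset (Finset (Fin 13)) → ℕ → Prop) (NT : ℕ)
    (G : ℕ → ℕ) (lanes : ℕ → ℕ → Set ℕ) : Prop where
  odd : ∀ B, C B → OddCover B
  table : ∀ m, m ≤ 6 → Even m → ∀ n, 2 * n = 114 + m → ∀ t < NT, GlueN n (G t) (lanes m t)
  ty_ok : ∀ B t sw Q, C B → W B Q → ty t sw Q = true →
    t < NT ∧ (gcode B 12 11 = G t ∨ gcode B 11 12 = G t)
  run_ok : ∀ m, m ≤ 6 → Even m → ∀ B t Q c, C B → W B Q → MM B 10 = m → t < NT →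
    enc 10 4 (link B 10) ∈ lanes m t → run m t Q c ≠ 0 → False

theorem dstep_sound {ty : ℕ → ℕ → ℕ → Bool} {run : ℕ → ℕ → ℕ → ℕ → ℕ}
    {C : Finset (Finset (Fin 13)) → Prop} {W : Finset (Finset (Fin 13)) → ℕ → Prop} {NT : ℕ}
    {G : ℕ → ℕ} {lanes : ℕ → ℕ → Set ℕ} (ho : DZOK ty run C W NT G lanes)
    (B : Finset (Finset (Fin 13))) (h Q c : ℕ) (hC : C B) (hW : W B Q)
    (hz : dstep ty run h Q c ≠ 0) : 8 ≤ MM B 10 := by
  by_contra hlt
  have hB := ho.odd B hC
  have hev := MM_even hB 10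
  unfold dstep at hz
  rw [cond_eq_ite] at hz
  by_cases h1 : ty (Nat.land h 16383) (Nat.shiftRight h 14) Q = true
  swap
  · rw [if_neg h1] at hz
    exact hz rfl
  rw [if_pos h1] at hz
  obtain ⟨r6, hz⟩ := nzN_ne hz
  obtain ⟨r4, hz⟩ := nzN_ne hz
  obtain ⟨r2, r0⟩ := nzN_ne hz
  obtain ⟨ht, hg⟩ := ho.ty_ok B _ _ Q hC hW h1
  have key : ∀ c, run (MM B 10) (Nat.land h 16383) Q c ≠ 0 → False := by
    intro c hc
    have hcard := two_mul_card_link hB 10
    have hT := ho.table (MM B 10) (by omega) hev (link B 10).card hcard _ ht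
    have hm : enc 10 4 (link B 10) ∈ lanes (MM B 10) (Nat.land h 16383) := by
      rcases hg with hg | hg
      · exact glue_mem hB hcard hT hg
      · exact glue_mem' hB hcard hT hg
    exact ho.run_ok (MM B 10) (by omega) hev B _ Q c hC hW rfl ht hm hc
  have hcases : MM B 10 = 6 ∨ MM B 10 = 4 ∨ MM B 10 = 2 ∨ MM B 10 = 0 := by
    obtain ⟨k, hk⟩ := hev
    omega
  rcases hcases with e | e | e | e <;> rw [e] at key
  · exact key _ r6
  · exact key _ r4
  · exact key _ r2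
  · exact key _ r0

/-- the correctness structure of stage D from the single statements -/
theorem dok_inst {s : ℕ} {NT : ℕ} {G : ℕ → ℕ} {lanes : ℕ → ℕ → Set ℕ}
    {ty : ℕ → ℕ → ℕ → Bool} {run : ℕ → ℕ → ℕ → ℕ → ℕ} {fl : ℕ → ℕ → ℕ} {fin : ℕ → Bool}
    (hz : DZOK ty run (CD s) PW NT G lanes)
    (hfl : ∀ (B : Finset (Finset (Fin 13))) (Q : ℕ) (z : Fin 13), OddCover B → B.card ≤ 157 →
      PW B Q → z.val < 11 → 8 ≤ MM B z → PW B (fl z.val Q))
    (hfin : ∀ (B : Finset (Finset (Fin 13))) (Q : ℕ), CD s B → PW B Q → fin Q = true → False) :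
    DOK ⟨Pool.Agent.Helper59.TY.exw, dstep ty run, fl, fin⟩ (CD s) PW where
  odd := fun B h => h.1.best.odd
  ex_ok := by
    intro B w Q h hW z hz hzw
    obtain ⟨ρ, h12, h11, h10, hW'⟩ := Pool.Agent.Helper59.TY.pw_exw h.1.best.odd hW w hz hzw
    exact ⟨ρ, h10, h.map h12 h11, hW'⟩
  zt_ok := fun B h Q c hC hW hzs => dstep_sound hz B h Q c hC hW hzs
  fl_ok := fun B Q h hW z hz h8 => hfl B Q z h.1.best.odd h.1.best.le hW hz h8
  fin_ok := by
    intro B Q h hW
    rw [← Bool.not_eq_true]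
    exact fun h1 => hfin B Q h hW h1

end Pool.Agent.Helper47.TY
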